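import Pool.Agent.Helper225.CP.Assemble
import Pool.Agent.Helper225.CP.TaskResProj
import Pool.Agent.Helper225.CP.TaskExtAdj
import Pool.Agent.Helper225.CP.TaskChain
import Pool.Agent.Helper225.CP.TaskFlag
import Pool.Agent.Helper225.CP.TaskDiag
import Pool.Agent.Helper225.CP.TaskLayers
import Pool.Agent.Helper225.CP.TaskCoPi
import Pool.Agent.Helper225.CP.TaskFin
import Pool.Agent.Helper225.CP.TaskOp
import Pool.Agent.Helper225.CP.TaskDec
import Pool.Agent.Helper225.CP.TaskList
import Pool.Agent.Helper225.CP.TaskExch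
import Pool.Agent.Helper225.CP.TaskRel
import Pool.Agent.Helper225.CP.TaskIso
import Pool.Agent.Helper225.CP.TaskRetL
import Pool.Agent.Helper225.CP.TaskGroup

/-!
# Rigid modules over crossed products with `p`-groups in characteristic `p`

`Crossed B A P` (in `Pool.Agent.Helper225.CP.Stmts`): a ring homomorphism `f : B → A` and units
`y g` of `A`, `g ∈ P`, such that every `y g * f b` is an `f b' * y g`, every `f b * y g` is a
`y g * f b'`, every `y g * y h` is an `f b * y (g * h)`, and every element of `A` is uniquely of the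
form `∑ g, f (b g) * y g`.

`o A k` (in `Pool.Agent.Q112.Rig.Defs`, as in `GroupAlgebras`): the supremum of the `m` for which
there are `m` pairwise nonisomorphic indecomposable finitely generated right `A`-modules
`M_1, …, M_m` with `Ext^i(M_a, M_b) = 0` for all `a`, `b` and `1 ≤ i ≤ k`.
-/

set_option autoImplicit false

universe u

open CategoryTheory Abelian MulOpposite

namespace Pool.Agent.Results.MP_b2fb47_al.CrossedProducts

open Pool.Agent.Q112.Rig Pool.Agent.Helper225.CP

theorem bound (p : ℕ) [Fact p.Prime] (B A : Type u) [Ring B] [Ring A] (hB : IsArtinianRing Bᵐᵒᵖ)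
    (hp : (p : B) = 0) (P : Type) [Group P] [Fintype P] (hP : IsPGroup p P) (C : Crossed B A P)
    (k : ℕ) (hk : 1 ≤ k) : o A k ≤ o B k :=
  final TResProj.main TExtAdj.main TChain.main TFlag.main TDiag.main TLayers.main TCoPi.main
    TFin.main TOp.main TDec.main TList.main TExch.main TRel.main TIso.main TRetL.main
    p B A hB hp P hP C k hk

/-- **Crossed products with `p`-groups.** Let `p` be a prime number.

(1) Let `B` be a right Artinian ring with `p = 0` in `B`, for example a finite-dimensional algebra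
over a field of characteristic `p`, let `P` be a finite `p`-group and let `A` be a crossed product of
`B` with `P`. Then `o_k(A) ≤ o_k(B)` for every `k ≥ 1`. In particular, if some `o_k(B)` with `k ≥ 1`
is finite then some `o_k(A)` with `k ≥ 1` is finite.

(2) Let `K` be a field of characteristic `p`, `G` a finite group and `N` a normal subgroup such that
`G/N` is a `p`-group. Then `o_k(K[G]) ≤ o_k(K[N])` for every `k ≥ 1`. -/
theorem result : ∀ (p : ℕ), p.Prime →
    (∀ (B A : Type u) [Ring B] [Ring A], IsArtinianRing Bᵐᵒᵖ → (p : B) = 0 →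
      ∀ (P : Type) [Group P] [Fintype P], IsPGroup p P → Crossed B A P →
        (∀ k : ℕ, 1 ≤ k → o A k ≤ o B k) ∧
        ((∃ k : ℕ, 1 ≤ k ∧ o B k ≠ ⊤) → ∃ k : ℕ, 1 ≤ k ∧ o A k ≠ ⊤)) ∧
    ∀ (K : Type u) [Field K] [CharP K p] (G : Type) [Group G] [Finite G] (N : Subgroup G)
      [N.Normal], IsPGroup p (G ⧸ N) →
        ∀ k : ℕ, 1 ≤ k → o (MonoidAlgebra K G) k ≤ o (MonoidAlgebra K N) k := by
  intro p hp
  have _ : Fact p.Prime := ⟨hp⟩
  constructor
  · intro B A _ _ hB hpB P _ _ hP C
    have h := bound p B A hB hpB P hP C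
    refine ⟨h, ?_⟩
    rintro ⟨k, hk, hk'⟩
    exact ⟨k, hk, fun h1 => hk' (top_le_iff.1 (h1 ▸ h k hk))⟩
  · intro K _ _ G _ _ N _ hP k hk
    classical
    have _ : Fintype (G ⧸ N) := Fintype.ofFinite _
    obtain ⟨C⟩ := TGroup.main K G N
    refine bound p (MonoidAlgebra K N) (MonoidAlgebra K G) ?_ ?_ (G ⧸ N) hP C k hk
    · exact TGroup.art K (MonoidAlgebra K N) inferInstance
    · have h0 : (p : K) = 0 := CharP.cast_eq_zero K p
      rw [← map_natCast (algebraMap K (MonoidAlgebra K N)), h0, map_zero]

end Pool.Agent.Results.MP_b2fb47_al.CrossedProducts
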