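import Pool.Agent.Q112.RigG.Alg

/-!
# Group algebras of `p`-groups with coefficients
-/

set_option autoImplicit false

universe u

open CategoryTheory Abelian MulOpposite

namespace Pool.Agent.Results.MP_b2fb47_al.GroupAlgebras

open Pool.Agent.Q112.Rig

/-- **Group algebras of `p`-groups.** Let `p` be a prime, `B` a ring with `p = 0` in `B` (for
example a finite-dimensional algebra over a field of characteristic `p`) and `P` a finite
`p`-group. Then `o_k(B[P]) = o_k(B)` for every `k ≥ 1`. In particular some `o_k(B[P])` is finite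
if and only if some `o_k(B)` is. -/
theorem result : ∀ (p : ℕ), p.Prime → ∀ (B : Type u) [Ring B], (p : B) = 0 →
    ∀ (P : Type) [Group P] [Finite P], IsPGroup p P →
    (∀ k : ℕ, 1 ≤ k → o (MonoidAlgebra B P) k = o B k) ∧
    ((∃ k : ℕ, 1 ≤ k ∧ o (MonoidAlgebra B P) k ≠ ⊤) ↔ ∃ k : ℕ, 1 ≤ k ∧ o B k ≠ ⊤) := by
  intro p hp B _ hB P _ _ hP
  have _ : Fact p.Prime := ⟨hp⟩
  have _ := Fintype.ofFinite P
  have h : ∀ k : ℕ, 1 ≤ k → o (MonoidAlgebra B P) k = o B k :=
    fun k hk => Pool.Agent.Q112.RigG.o_ga B P hP hB k hk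
  refine ⟨h, ?_⟩
  constructor
  · rintro ⟨k, hk, hk'⟩
    exact ⟨k, hk, by rw [← h k hk]; exact hk'⟩
  · rintro ⟨k, hk, hk'⟩
    exact ⟨k, hk, by rw [h k hk]; exact hk'⟩

end Pool.Agent.Results.MP_b2fb47_al.GroupAlgebras
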