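import Pool.Agent.Q112.QCI.Alg

/-!
# Rigid modules over quantum complete intersections are free
-/

set_option autoImplicit false

universe u

open CategoryTheory Abelian MulOpposite

namespace Pool.Agent.Results.MP_b2fb47_al.QuantumCompleteIntersections

open Pool.Agent.Q112.QCI Pool.Agent.Q112.Rig

variable {K : Type u} [Field K] {n : ℕ} {a : Fin n → ℕ} {q : Fin n → Fin n → K}

/-- a rigid finitely generated module is free of finite rank -/
theorem free_rank (ha : ∀ i, 1 ≤ a i) (hq : ∀ i j : Fin n, j < i → q i j ≠ 0)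
    (M : ModuleCat.{u} (QCI K a q)ᵐᵒᵖ) (hM : Module.Finite (QCI K a q)ᵐᵒᵖ M)
    (hE : Subsingleton (Ext M M 1)) :
    ∃ r : ℕ, Nonempty (M ≃ₗ[(QCI K a q)ᵐᵒᵖ] (Fin r → (QCI K a q)ᵐᵒᵖ)) := by
  let S := (QCI K a q)ᵐᵒᵖ
  let _ : Module K M := Module.compHom M (algebraMap K S)
  have _ : IsScalarTower K S M := ⟨fun k x m => by
    change (k • x) • m = algebraMap K S k • x • m
    rw [Algebra.smul_def, mul_smul]⟩
  have hfin : Module.Finite K S := finite_alg adjoin_gen (gen_quasi hq) (cc_mul hq)
  have _ : FiniteDimensional K M := Module.Finite.trans S M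
  have hP : Module.Projective S M := projective_of_ext (gen a q) adjoin_gen (gen_quasi hq)
    (fun E _ _ Y hY => lift E Y hY) (cc_mul hq) ha hE
  exact free_of_projective adjoin_gen (gen_quasi hq)

/-- an indecomposable module which is free of rank `r` has `r = 1` -/
theorem rank_one {R : Type u} [Ring R] {M : Type u} [AddCommGroup M] [Module R M]
    (hM : Indec R M) (r : ℕ) (e : M ≃ₗ[R] (Fin r → R)) : Nonempty (M ≃ₗ[R] R) := by
  classical
  obtain ⟨hn, hd⟩ := hM
  rcases r with _ | r
  · exfalso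
    obtain ⟨x, y, hxy⟩ := hn
    exact hxy (e.injective (Subsingleton.elim _ _))
  · let U : Submodule R (Fin (r + 1) → R) := LinearMap.range (LinearMap.single R (fun _ => R) 0)
    let V : Submodule R (Fin (r + 1) → R) := LinearMap.ker (LinearMap.proj 0)
    have hUV : IsCompl U V := by
      constructor
      · rw [Submodule.disjoint_def]
        rintro _ ⟨x, rfl⟩ hx
        have : x = 0 := by
          have h : (LinearMap.single R (fun _ : Fin (r + 1) => R) 0 x : Fin (r + 1) → R) 0 = 0 := hx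
          simpa using h
        rw [this, map_zero]
      · rw [codisjoint_iff, eq_top_iff]
        rintro v -
        rw [Submodule.mem_sup]
        refine ⟨_, ⟨v 0, rfl⟩, v - LinearMap.single R (fun _ => R) 0 (v 0), ?_, by abel⟩
        change (v - LinearMap.single R (fun _ : Fin (r + 1) => R) 0 (v 0)) 0 = 0
        simp
    have hUV' : IsCompl (U.map e.symm.toLinearMap) (V.map e.symm.toLinearMap) :=
      hUV.map (Submodule.orderIsoMapComap e.symm)
    rcases hd _ _ hUV' with h | h
    · -- then the ring is trivial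
      have hU : U = ⊥ := (Submodule.eq_bot_iff _).2 fun x hx => e.symm.injective (by
        rw [map_zero]; exact (Submodule.eq_bot_iff _).1 h _ ⟨x, hx, rfl⟩)
      have h1 : LinearMap.single R (fun _ : Fin (r + 1) => R) 0 (1 : R) = 0 := by
        have : LinearMap.single R (fun _ : Fin (r + 1) => R) 0 (1 : R) ∈ U := ⟨1, rfl⟩
        rw [hU] at this
        exact this
      have h2 : (1 : R) = 0 := by
        have := congrFun h1 0
        simpa using this
      exfalso
      obtain ⟨x, y, hxy⟩ := hn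
      apply hxy
      rw [← one_smul R x, ← one_smul R y, h2, zero_smul, zero_smul]
    · have hV : V = ⊥ := (Submodule.eq_bot_iff _).2 fun x hx => e.symm.injective (by
        rw [map_zero]; exact (Submodule.eq_bot_iff _).1 h _ ⟨x, hx, rfl⟩)
      have hinj : Function.Injective (LinearMap.proj 0 : (Fin (r + 1) → R) →ₗ[R] R) :=
        LinearMap.ker_eq_bot.1 hV
      have hsurj : Function.Surjective (LinearMap.proj 0 : (Fin (r + 1) → R) →ₗ[R] R) :=
        fun x => ⟨fun _ => x, rfl⟩
      exact ⟨e.trans (LinearEquiv.ofBijective _ ⟨hinj, hsurj⟩)⟩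

/-- **Quantum complete intersections.** Let `A` be a quantum complete intersection over a field
`K`. Then every finitely generated right `A`-module `M` with `Ext^1_A(M, M) = 0` is free, and
`o_k(A) = 1` for every `k ≥ 1`. -/
theorem result : ∀ (K : Type u) [Field K] (n : ℕ) (a : Fin n → ℕ) (q : Fin n → Fin n → K),
    1 ≤ n → (∀ i, 2 ≤ a i) → (∀ i j, j < i → q i j ≠ 0) →
    (∀ M : ModuleCat.{u} (QCI K a q)ᵐᵒᵖ, Module.Finite (QCI K a q)ᵐᵒᵖ M →
      Subsingleton (Ext M M 1) → Module.Free (QCI K a q)ᵐᵒᵖ M) ∧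
    ∀ k : ℕ, 1 ≤ k → o (QCI K a q) k = 1 := by
  intro K _ n a q _ ha2 hq
  have ha : ∀ i, 1 ≤ a i := fun i => le_trans (by norm_num) (ha2 i)
  refine ⟨?_, ?_⟩
  · intro M hM hE
    obtain ⟨r, ⟨e⟩⟩ := free_rank ha hq M hM hE
    exact Module.Free.of_equiv e.symm
  · intro k hk
    apply le_antisymm
    · refine iSup_le fun m => iSup_le fun h => ?_
      obtain ⟨M, hM⟩ := h
      have hm : m ≤ 1 := by
        by_contra hm
        have key : ∀ p, Nonempty ((M p) ≃ₗ[(QCI K a q)ᵐᵒᵖ] (QCI K a q)ᵐᵒᵖ) := by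
          intro p
          obtain ⟨r, ⟨e⟩⟩ := free_rank ha hq (M p) (hM.fin p) (hM.ext p p 1 le_rfl hk)
          exact rank_one (hM.indec p) r e
        obtain ⟨e0⟩ := key ⟨0, by omega⟩
        obtain ⟨e1⟩ := key ⟨1, by omega⟩
        exact (hM.noniso ⟨0, by omega⟩ ⟨1, by omega⟩ (by simp)).false (e0.trans e1.symm)
      exact_mod_cast hm
    · refine le_iSup₂_of_le 1 ⟨fun _ => ModuleCat.of (QCI K a q)ᵐᵒᵖ (QCI K a q)ᵐᵒᵖ, ?_⟩ (by simp)
      have _ : Nontrivial (QCI K a q)ᵐᵒᵖ := nontrivial_op ha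
      refine ⟨fun _ => ?_, fun _ => ?_, fun p q h => absurd (Subsingleton.elim p q) h, ?_⟩
      · change Module.Finite (QCI K a q)ᵐᵒᵖ (QCI K a q)ᵐᵒᵖ
        infer_instance
      · exact indec_self adjoin_gen (gen_quasi hq)
      · intro p q i hi _
        obtain ⟨j, rfl⟩ : ∃ j, i = j + 1 := ⟨i - 1, by omega⟩
        have hP : Projective (ModuleCat.of (QCI K a q)ᵐᵒᵖ (QCI K a q)ᵐᵒᵖ) :=
          (IsProjective.iff_projective (R := (QCI K a q)ᵐᵒᵖ) _).1 inferInstance
        exact Ext.subsingleton_of_projective _ _ j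

end Pool.Agent.Results.MP_b2fb47_al.QuantumCompleteIntersections
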