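import Pool.Agent.Q112.Rig.Tens

/-!
# Adjoining a nilpotent variable does not change `o_k`
-/

set_option autoImplicit false

universe u

open CategoryTheory Abelian MulOpposite TensorProduct Polynomial

namespace Pool.Agent.Results.MP_b2fb47_al.TruncatedPolynomials

open Pool.Agent.Q112.Rig

/-- **Truncated polynomial extensions.** Let `B` be a finite-dimensional algebra over a field `K`
and let `A = B ⊗ K[x]/(x^n)`, `n ≥ 1`. Then `o_k(A) = o_k(B)` for every `k ≥ 1`. In particular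
some `o_k(A)` is finite if and only if some `o_k(B)` is. -/
theorem result : ∀ (K : Type u) [Field K] (B : Type u) [Ring B] [Algebra K B] [Module.Finite K B]
    (n : ℕ), 1 ≤ n →
    (∀ k : ℕ, 1 ≤ k → o (B ⊗[K] AdjoinRoot (X ^ n : K[X])) k = o B k) ∧
    ((∃ k : ℕ, 1 ≤ k ∧ o (B ⊗[K] AdjoinRoot (X ^ n : K[X])) k ≠ ⊤) ↔
      ∃ k : ℕ, 1 ≤ k ∧ o B k ≠ ⊤) := by
  intro K _ B _ _ _ n hn
  have h : ∀ k : ℕ, 1 ≤ k → o (B ⊗[K] AdjoinRoot (X ^ n : K[X])) k = o B k :=
    fun k hk => o_tp K B n hn k hk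
  refine ⟨h, ?_⟩
  constructor
  · rintro ⟨k, hk, hk'⟩
    exact ⟨k, hk, by rw [← h k hk]; exact hk'⟩
  · rintro ⟨k, hk, hk'⟩
    exact ⟨k, hk, by rw [h k hk]; exact hk'⟩

end Pool.Agent.Results.MP_b2fb47_al.TruncatedPolynomials
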